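import Pool.Agent.H18.TE.Targets

/-!
# Backward heights: the growth conditions are satisfied at some scale (GR4)
-/

set_option autoImplicit false

namespace Pool.Agent.H36.BKH

open Pool.Agent.H18.TE

theorem gr4_nine : (5832 : ℝ) ≤ Real.exp 9 := by
  have h1 : (2.7182818283 : ℝ) ≤ Real.exp 1 := Real.exp_one_gt_d9.le
  have h2 : Real.exp 9 = Real.exp 1 ^ 9 := by
    rw [← Real.exp_nat_mul]
    norm_num
  rw [h2]
  calc (5832 : ℝ) ≤ 2.7182818283 ^ 9 := by norm_num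
    _ ≤ Real.exp 1 ^ 9 := pow_le_pow_left₀ (by norm_num) h1 9

/-- crude upper bound -/
theorem gr4_up (a Y : ℕ → ℕ) (hY : ∀ m n, Y (m + n) ≤ a n ^ 2 * Y m) (n : ℕ) :
    Y n ≤ (a 1 ^ 2) ^ n * Y 0 := by
  induction n with
  | zero => simp
  | succ n ih =>
    calc Y (n + 1) ≤ a 1 ^ 2 * Y n := hY n 1
      _ ≤ a 1 ^ 2 * ((a 1 ^ 2) ^ n * Y 0) := Nat.mul_le_mul_left _ ih
      _ = (a 1 ^ 2) ^ (n + 1) * Y 0 := by ring

/-- the growth rate -/
theorem gr4_lim (a Y : ℕ → ℕ) (c : ℝ) (ha : ∀ n, 1 ≤ a n)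
    (hY : ∀ m n, Y (m + n) ≤ a n ^ 2 * Y m) (hc : 0 < c)
    (hgr : ∀ N, ∃ n ≥ N, c ^ n ≤ (Y n : ℝ)) :
    ∃ L : ℝ, Real.log c ≤ L ∧ ∀ δ : ℝ, 0 < δ →
      (∀ N : ℕ, ∃ n ≥ N, Real.exp ((L - δ) * n) ≤ (Y n : ℝ)) ∧
      ∃ N : ℕ, ∀ n ≥ N, (Y n : ℝ) < Real.exp ((L + δ) * n) := by
  have hcS : ∀ N : ℕ, ∃ n ≥ N, Real.exp (Real.log c * n) ≤ (Y n : ℝ) := by
    intro N
    obtain ⟨n, hn, h⟩ := hgr N
    refine ⟨n, hn, ?_⟩
    rwa [mul_comm, Real.exp_nat_mul, Real.exp_log hc]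
  have hbd : BddAbove {x : ℝ | ∀ N : ℕ, ∃ n ≥ N, Real.exp (x * n) ≤ (Y n : ℝ)} := by
    refine ⟨2 * Real.log (a 1) + Real.log (Y 0), ?_⟩
    intro x hx
    obtain ⟨n, hn, h⟩ := hx 1
    have hn0 : (1 : ℝ) ≤ n := by exact_mod_cast hn
    have h1 : (Y n : ℝ) ≤ ((a 1 : ℝ) ^ 2) ^ n * Y 0 := by exact_mod_cast gr4_up a Y hY n
    have h2 : Real.exp (x * n) ≤ ((a 1 : ℝ) ^ 2) ^ n * Y 0 := h.trans h1
    have ha1 : (1 : ℝ) ≤ a 1 := by exact_mod_cast ha 1
    have ha0 : (0 : ℝ) < ((a 1 : ℝ) ^ 2) ^ n := by positivity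
    have hY0 : (0 : ℝ) < Y 0 := by
      have : 0 < ((a 1 : ℝ) ^ 2) ^ n * Y 0 := (Real.exp_pos _).trans_le h2
      exact (mul_pos_iff_of_pos_left ha0).mp this
    have hY1 : (1 : ℝ) ≤ Y 0 := by
      have : 0 < Y 0 := by exact_mod_cast hY0
      exact_mod_cast this
    have h3 := Real.log_le_log (Real.exp_pos _) h2
    rw [Real.log_exp, Real.log_mul ha0.ne' hY0.ne', Real.log_pow, Real.log_pow] at h3
    have h4 : 0 ≤ Real.log (a 1) := Real.log_nonneg ha1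
    have h5 : 0 ≤ Real.log (Y 0) := Real.log_nonneg hY1
    push_cast at h3
    by_contra hlt
    push Not at hlt
    have h6 : (2 * Real.log (a 1) + Real.log (Y 0)) * n < x * n :=
      mul_lt_mul_of_pos_right hlt (by linarith)
    nlinarith
  have hne : ({x : ℝ | ∀ N : ℕ, ∃ n ≥ N, Real.exp (x * n) ≤ (Y n : ℝ)}).Nonempty := ⟨_, hcS⟩
  refine ⟨sSup {x : ℝ | ∀ N : ℕ, ∃ n ≥ N, Real.exp (x * n) ≤ (Y n : ℝ)}, le_csSup hbd hcS, ?_⟩
  intro δ hδ
  constructor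
  · intro N
    obtain ⟨x, hx, hlt⟩ := exists_lt_of_lt_csSup hne
      (sub_lt_self (sSup {x : ℝ | ∀ N : ℕ, ∃ n ≥ N, Real.exp (x * n) ≤ (Y n : ℝ)}) hδ)
    obtain ⟨n, hn, h⟩ := hx N
    refine ⟨n, hn, le_trans ?_ h⟩
    exact Real.exp_le_exp.mpr (mul_le_mul_of_nonneg_right hlt.le (Nat.cast_nonneg _))
  · by_contra hno
    push Not at hno
    have h1 : sSup {x : ℝ | ∀ N : ℕ, ∃ n ≥ N, Real.exp (x * n) ≤ (Y n : ℝ)} + δ ≤
        sSup {x : ℝ | ∀ N : ℕ, ∃ n ≥ N, Real.exp (x * n) ≤ (Y n : ℝ)} := le_csSup hbd hno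
    linarith

theorem pf_GR4 : T_GR4 := by
  intro a Y e c ha _ hY he hec hgr hac
  have he0 : (0 : ℝ) < e := by exact_mod_cast he
  have hc0 : 0 < c := he0.trans hec
  obtain ⟨L, hcL, hL⟩ := gr4_lim a Y c ha hY hc0 hgr
  obtain ⟨ε, hε⟩ : ∃ ε, ε = Real.log e := ⟨_, rfl⟩
  have hε0 : 0 ≤ ε := by
    rw [hε]
    exact Real.log_nonneg (by exact_mod_cast he)
  have hεL : ε < L := by
    rw [hε]
    exact (Real.log_lt_log he0 hec).trans_le hcL
  obtain ⟨δ, hδ⟩ : ∃ δ, δ = (L - ε) / 20 := ⟨_, rfl⟩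
  have hδ0 : 0 < δ := by
    rw [hδ]
    linarith
  have hLe : L = ε + 20 * δ := by
    rw [hδ]
    ring
  obtain ⟨hlo, N1, hup⟩ := hL δ hδ0
  obtain ⟨N2, ha2⟩ := hac (Real.exp (ε + δ)) (by
    rw [Real.exp_add, hε, Real.exp_log he0]
    have : 1 < Real.exp δ := Real.one_lt_exp_iff.mpr hδ0
    nlinarith)
  obtain ⟨A, hA⟩ : ∃ A, A = Real.log (a 1) := ⟨_, rfl⟩
  have ha10 : (0 : ℝ) < a 1 := by exact_mod_cast ha 1
  have hA0 : 0 ≤ A := by
    rw [hA]
    exact Real.log_nonneg (by exact_mod_cast ha 1)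
  obtain ⟨k, hk⟩ := exists_nat_ge ((10 + 4 * A) / δ)
  obtain ⟨n, hn, hYn⟩ := hlo (2 * (N1 + N2 + k + 1))
  obtain ⟨m, hm⟩ : ∃ m, m = n / 2 := ⟨_, rfl⟩
  have hmk : N1 + N2 + k + 1 ≤ m := by omega
  have hm1 : 1 ≤ m := by omega
  have hmδ : 10 + 4 * A ≤ δ * m := by
    have h1 : (k : ℝ) ≤ m := by
      have : k ≤ m := by omega
      exact_mod_cast this
    have h2 : (10 + 4 * A) / δ ≤ (m : ℝ) := hk.trans h1
    rw [div_le_iff₀ hδ0] at h2
    linarith
  have hm0 : (0 : ℝ) ≤ m := Nat.cast_nonneg m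
  have hmε : 0 ≤ ε * m := mul_nonneg hε0 hm0
  have hem : ((e : ℝ)) ^ m = Real.exp (ε * m) := by
    rw [hε, mul_comm, Real.exp_nat_mul, Real.exp_log he0]
  have ham : (a m : ℝ) ≤ Real.exp ((ε + δ) * m) := by
    have h := (ha2 m (by omega)).le
    rwa [← Real.exp_nat_mul, mul_comm] at h
  have hYm : (Y m : ℝ) ≤ Real.exp ((L + δ) * m) := (hup m (by omega)).le
  -- lower bound at `2 m`
  have hlow : Real.exp (2 * ((L - δ) * m) - 2 * A) ≤ (Y (m + m) : ℝ) := by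
    have hLδ : 0 ≤ L - δ := by rw [hLe]; linarith
    rcases Nat.even_or_odd' n with ⟨t, ht | ht⟩
    · have htm : t = m := by omega
      subst htm
      rw [ht] at hYn
      have e1 : 2 * t = t + t := by ring
      rw [e1] at hYn
      refine le_trans (Real.exp_le_exp.mpr ?_) hYn
      push_cast
      nlinarith
    · have htm : t = m := by omega
      subst htm
      rw [ht] at hYn
      have h1 : Y (2 * t + 1) ≤ a 1 ^ 2 * Y (t + t) := by
        have := hY (t + t) 1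
        rwa [show t + t + 1 = 2 * t + 1 by ring] at this
      have h2 : (Y (2 * t + 1) : ℝ) ≤ (a 1 : ℝ) ^ 2 * Y (t + t) := by exact_mod_cast h1
      have h3 : (a 1 : ℝ) ^ 2 = Real.exp (2 * A) := by
        have := Real.exp_nat_mul A 2
        push_cast at this
        rw [this, hA, Real.exp_log ha10]
      rw [h3] at h2
      have h4 : Real.exp (2 * ((L - δ) * t)) ≤ Real.exp (2 * A) * Y (t + t) := by
        refine le_trans (le_trans (Real.exp_le_exp.mpr ?_) hYn) h2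
        push_cast
        nlinarith
      rw [Real.exp_sub, div_le_iff₀ (Real.exp_pos _)]
      linarith
  have h9 := gr4_nine
  refine ⟨m, hm1, ?_, ?_, ?_⟩
  · have h : (54 : ℝ) * (e : ℝ) ^ m * Y m < Y (m + m) := by
      rw [hem]
      calc (54 : ℝ) * Real.exp (ε * m) * Y m
          ≤ Real.exp 9 * Real.exp (ε * m) * Real.exp ((L + δ) * m) := by
            refine mul_le_mul ?_ hYm (Nat.cast_nonneg _) (by positivity)
            exact mul_le_mul_of_nonneg_right (by linarith) (Real.exp_pos _).le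
        _ = Real.exp (9 + ε * m + (L + δ) * m) := by
            rw [Real.exp_add, Real.exp_add]
        _ < Real.exp (2 * ((L - δ) * m) - 2 * A) := by
            rw [Real.exp_lt_exp, hLe]
            nlinarith
        _ ≤ _ := hlow
    exact_mod_cast h
  · have h : (5832 : ℝ) * ((e : ℝ) ^ m * a m) * (Y m : ℝ) ^ 2 ≤ (Y (m + m) : ℝ) ^ 2 := by
      rw [hem]
      have h1 : (Y m : ℝ) ^ 2 ≤ Real.exp ((L + δ) * m) ^ 2 :=
        pow_le_pow_left₀ (Nat.cast_nonneg _) hYm 2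
      calc (5832 : ℝ) * (Real.exp (ε * m) * a m) * (Y m : ℝ) ^ 2
          ≤ Real.exp 9 * (Real.exp (ε * m) * Real.exp ((ε + δ) * m)) *
            Real.exp ((L + δ) * m) ^ 2 := by
            refine mul_le_mul (mul_le_mul h9 (mul_le_mul_of_nonneg_left ham (Real.exp_pos _).le)
              ?_ ?_) h1 ?_ ?_ <;> positivity
        _ = Real.exp (9 + (ε * m + (ε + δ) * m) + 2 * ((L + δ) * m)) := by
            rw [Real.exp_add, Real.exp_add, Real.exp_add, ← Real.exp_nat_mul]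
            push_cast
            rfl
        _ ≤ Real.exp (2 * (2 * ((L - δ) * m) - 2 * A)) := by
            rw [Real.exp_le_exp, hLe]
            nlinarith
        _ = Real.exp (2 * ((L - δ) * m) - 2 * A) ^ 2 := by
            rw [← Real.exp_nat_mul]
            push_cast
            rfl
        _ ≤ _ := pow_le_pow_left₀ (Real.exp_pos _).le hlow 2
    exact_mod_cast h
  · have h : (5832 : ℝ) * ((e : ℝ) ^ m * a m) ≤ (Y (m + m) : ℝ) := by
      rw [hem]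
      calc (5832 : ℝ) * (Real.exp (ε * m) * a m)
          ≤ Real.exp 9 * (Real.exp (ε * m) * Real.exp ((ε + δ) * m)) := by
            refine mul_le_mul h9 (mul_le_mul_of_nonneg_left ham (Real.exp_pos _).le) ?_ ?_ <;>
              positivity
        _ = Real.exp (9 + (ε * m + (ε + δ) * m)) := by
            rw [Real.exp_add, Real.exp_add]
        _ ≤ Real.exp (2 * ((L - δ) * m) - 2 * A) := by
            rw [Real.exp_le_exp, hLe]
            nlinarith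
        _ ≤ _ := hlow
    exact_mod_cast h

end Pool.Agent.H36.BKH
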